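import Mathlib
import Pool.Agent.V11252.OA.Base

/-!
There are Riesz spaces `E`, `F` with `F` Archimedean and orthogonally additive maps `S, T : E → F`
whose join exists in `O(E, F)` but is not given by the pointwise formula in the Dedekind
completion of `F`.
-/

open Pool.Agent.V11252.OA

namespace Pool.Agent.Results.MP_78978c_an.JoinNotR1

/-- `E` is a Riesz space: a real vector lattice. -/
def IsRiesz (E : Type) [AddCommGroup E] [Lattice E] [Module ℝ E] : Prop :=
  (∀ x y z : E, x ≤ y → x + z ≤ y + z) ∧ ∀ (a : ℝ) (x : E), 0 ≤ a → 0 ≤ x → 0 ≤ a • x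

/-- The Archimedean property of a Riesz space. -/
def IsArch (E : Type) [AddCommGroup E] [Lattice E] : Prop :=
  ∀ x y : E, (∀ n : ℕ, n • x ≤ y) → x ≤ 0

/-- The set of orthogonally additive maps from `E` to `F`. -/
def OrthAdd (E F : Type) [AddCommGroup E] [Lattice E] [AddCommGroup F] : Set (E → F) :=
  {T | ∀ x y : E, |x| ⊓ |y| = 0 → T (x + y) = T x + T y}

/-- `J` is the join of `S` and `T` in the set of all orthogonally additive maps, ordered
pointwise. -/
def IsJoin {E F : Type} [AddCommGroup E] [Lattice E] [AddCommGroup F] [Lattice F]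
    (S T J : E → F) : Prop :=
  J ∈ OrthAdd E F ∧ S ≤ J ∧ T ≤ J ∧ ∀ U ∈ OrthAdd E F, S ≤ U → T ≤ U → J ≤ U

/-- The set of all `j (S u) + j (T v)`, where `x = u + v` and `u ⊥ v`. -/
def splitSums {E F G : Type} [AddCommGroup E] [Lattice E] [AddCommGroup F] [AddCommGroup G]
    (j : F → G) (S T : E → F) (x : E) : Set G :=
  {w | ∃ u v : E, x = u + v ∧ |u| ⊓ |v| = 0 ∧ w = j (S u) + j (T v)}

/-- There are Riesz spaces `E`, `F`, with `F` Archimedean, orthogonally additive maps
`S, T : E → F` whose join `J` exists in the space of all orthogonally additive maps from `E` to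
`F`, and a point `x` such that, for every additive order embedding `j` of `F` into a Riesz space
`G` (in particular for a Dedekind completion of `F`), the supremum in `G` of the elements
`j (S u) + j (T v)` with `x = u ⊔ v` is not `j (J x)`. -/
theorem result : ∃ (E F : Type) (_ : AddCommGroup E) (_ : Lattice E) (_ : Module ℝ E)
    (_ : AddCommGroup F) (_ : Lattice F) (_ : Module ℝ F),
    IsRiesz E ∧ IsRiesz F ∧ IsArch F ∧
    ∃ S T J : E → F, S ∈ OrthAdd E F ∧ T ∈ OrthAdd E F ∧ IsJoin S T J ∧
      ∃ x : E, ∀ (G : Type) [AddCommGroup G] [Lattice G] (j : F →+ G),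
        (∀ a b : F, j a ≤ j b ↔ a ≤ b) → ∀ r : G, IsLUB (splitSums j S T x) r → r ≠ j (J x) := by
  refine ⟨Per, F, inferInstance, inferInstance, inferInstance, inferInstance, inferInstance,
    inferInstance, ⟨?_, ?_⟩, ⟨?_, ?_⟩, ?_, Pool.Agent.V11252.OA.S, 0, J, S_mem, ?_,
    ⟨J_mem, S_le_J, zero_le_J, fun U hU h1 h2 => J_least hU h1 h2⟩, one, ?_⟩
  · intro x y z h; exact add_le_add_left h z
  · intro a x ha hx n
    exact mul_nonneg ha (hx n)
  · intro x y z h; exact add_le_add_left h z
  · intro a x ha hx n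
    exact mul_nonneg ha (hx n)
  · intro x y h ν
    change x ν ≤ 0
    by_contra hcon
    push Not at hcon
    obtain ⟨n, hn⟩ := exists_nat_gt (y ν / x ν)
    have h1 : (n • x) ν ≤ y ν := h n ν
    rw [ContinuousMap.nsmul_apply, nsmul_eq_mul] at h1
    rw [div_lt_iff₀ hcon] at hn
    linarith
  · intro x y _
    change (0 : F) = 0 + 0
    rw [add_zero]
  · intro G _ _ j hj r hr hcon
    have h1 : r ≤ j (ContinuousMap.const X (1 / 2)) := by
      refine hr.2 ?_
      rintro w ⟨u, v, h1, h2, rfl⟩
      rw [← map_add, hj]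
      exact half_bound _ ⟨u, v, h1.symm, h2, rfl⟩
    rw [hcon, hj] at h1
    exact J_one_not_le h1

end Pool.Agent.Results.MP_78978c_an.JoinNotR1
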